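import Pool.Agent.H91.Kobay

set_option autoImplicit false

open Filter Topology Metric H91.Kobay in
theorem Pool.Agent.Results.MP_32da07_an.Cusp.result :
    ∃ (D : Set E) (z₀ ζ₀ : E), IsOpen D ∧ IsConnected D ∧ Bornology.IsBounded D ∧
    (∀ z ∈ D, ∀ w : E, (∀ j, ‖w j‖ = ‖z j‖) → w ∈ D) ∧ HolConv D ∧ z₀ ∈ D ∧ ζ₀ ∈ frontier D ∧
    (∀ j, ζ₀ j = 0 → ∃ z ∈ D, z j = 0) ∧ ∀ U ∈ 𝓝 ζ₀, ∀ C : ℝ, ∃ z ∈ D ∩ U,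
      kob D z₀ z < -(1 / 2) * Real.log (infDist z (frontier D)) + C :=
  main
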